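import Pool.Agent.N844.QP.Two
import Pool.Agent.N844.QP.Pencil

/-!
Pencils of quadrics in `P^(2g+3)` whose discriminant is a product of linear forms: smoothness of the base
locus and the number of points over a finite field. A root at infinity is allowed.
-/

set_option autoImplicit false

namespace Pool.Agent.N844.QH

open Finset Matrix Polynomial
open scoped LinearAlgebra.Projectivization
open Pool.Agent.N844.QP

section lemmas

variable {k : Type*} [Field k] {N : ℕ}

/-- a singular point of a member of the pencil on the base locus -/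
theorem node {A B : Matrix (Fin N) (Fin N) k} (hA : A.IsSymm) (hB : B.IsSymm) {x : k}
    {y : Fin N → k} (hy : y ≠ 0) (hM : (x • A - B) *ᵥ y = 0) (h1 : qf A y = 0) :
    (dp A B).derivative.eval x = 0 := by
  apply Pool.Agent.N844.QP.deriv_zero
  rw [dp_shift]
  obtain ⟨i, hi⟩ : ∃ i, y i ≠ 0 := Function.ne_iff.1 hy
  set P : Matrix (Fin N) (Fin N) k := (1 : Matrix (Fin N) (Fin N) k).updateCol i y with hPdef
  have hPdet : P.det = y i := by
    rw [hPdef, ← cramer_apply, cramer_one]
    rfl
  have hPi : P *ᵥ (Pi.single i 1) = y := by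
    rw [mulVec_single_one]
    ext a
    simp [hPdef]
  apply dvd_of_conj P _ _ (isUnit_iff_ne_zero.2 (hPdet ▸ hi))
  have hMs : (x • A - B).IsSymm := (hA.smul x).sub hB
  have hcolM : ∀ a, (Pᵀ * (x • A - B) * P) a i = 0 := by
    intro a
    have h3 : (Pᵀ * (x • A - B) * P) *ᵥ (Pi.single i 1) = 0 := by
      rw [← mulVec_mulVec, hPi, ← mulVec_mulVec, hM, mulVec_zero]
    have h4 := congrFun h3 a
    rwa [mulVec_single_one] at h4
  have hrowM : ∀ a, (Pᵀ * (x • A - B) * P) i a = 0 := by
    intro a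
    have h3 : (Pᵀ * (x • A - B) * P).IsSymm := by
      unfold IsSymm
      rw [transpose_mul, transpose_mul, transpose_transpose, hMs.eq, Matrix.mul_assoc]
    rw [← h3.apply]
    exact hcolM a
  have hii : (Pᵀ * A * P) i i = 0 := by
    have h3 : (Pᵀ * A * P) i i = (Pi.single i 1 : Fin N → k) ⬝ᵥ
        ((Pᵀ * A * P) *ᵥ (Pi.single i 1)) := by
      rw [mulVec_single_one, single_one_dotProduct]
      rfl
    rw [h3, ← mulVec_mulVec, ← mulVec_mulVec, hPi, dotProduct_mulVec, vecMul_transpose, hPi]
    exact h1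
  refine row_col _ i X (fun b => C ((Pᵀ * A * P) i b)) (fun b => C ((Pᵀ * A * P) b i)) ?_ ?_ ?_
  · funext b
    simp only [pm, Matrix.add_apply, Matrix.smul_apply, map_apply, Pi.smul_apply]
    rw [hrowM b]
    simp
  · show C _ = _
    rw [hii, C_0]
  · intro b
    simp only [pm, Matrix.add_apply, Matrix.smul_apply, map_apply]
    rw [hcolM b]
    simp

/-- the base locus of the pencil is smooth -/
theorem smooth' {A B : Matrix (Fin N) (Fin N) k} (hA : A.IsSymm) (hB : B.IsSymm)
    (h0 : A.det = 0 → (dp B A).derivative.eval 0 ≠ 0)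
    (hf : ∀ x : k, (dp A B).eval x = 0 → (dp A B).derivative.eval x ≠ 0)
    {y : Fin N → k} (hy : y ≠ 0) (h1 : qf A y = 0) (h2 : qf B y = 0) :
    LinearIndependent k ![A *ᵥ y, B *ᵥ y] := by
  rw [LinearIndependent.pair_iff]
  intro s t hst
  by_contra hcon
  have ht : t ≠ 0 := by
    rintro rfl
    rw [zero_smul, add_zero] at hst
    have hs : s ≠ 0 := fun h => hcon ⟨h, rfl⟩
    have h3 : A *ᵥ y = 0 := (smul_eq_zero.1 hst).resolve_left hs
    have hd : A.det = 0 := by
      by_contra hne
      exact hy (eq_zero_of_mulVec_eq_zero hne h3)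
    refine h0 hd (node hB hA (x := 0) hy ?_ h2)
    rw [sub_mulVec, zero_smul, zero_mulVec, h3, sub_zero]
  set x : k := -s / t with hx
  have hM : (x • A - B) *ᵥ y = 0 := by
    rw [sub_mulVec, smul_mulVec]
    have h3 : t • (x • A *ᵥ y - B *ᵥ y) = 0 := by
      rw [smul_sub, smul_smul, hx, mul_div_cancel₀ _ ht, neg_smul, ← neg_add', hst, neg_zero]
    exact (smul_eq_zero.1 h3).resolve_left ht
  have hdet : (dp A B).eval x = 0 := by
    rw [dp_eval]
    by_contra h3
    exact hy (eq_zero_of_mulVec_eq_zero h3 hM)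
  exact hf x hdet (node hA hB hy hM h1)

/-- the number of common zeros -/
theorem count' [Fintype k] [DecidableEq k] (hk : ringChar k ≠ 2) (g : ℕ)
    (A B : Matrix (Fin (2 * (g + 1) + 2)) (Fin (2 * (g + 1) + 2)) k) (hA : A.IsSymm)
    (hB : B.IsSymm) (hA0 : A.det = 0 → (dp B A).derivative.eval 0 ≠ 0)
    (hf : ∀ x : k, (dp A B).eval x = 0 → (dp A B).derivative.eval x ≠ 0) :
    ((univ.filter fun y : Fin (2 * (g + 1) + 2) → k => qf B y = 0 ∧ qf A y = 0).card : ℤ) =
      (Fintype.card k : ℤ) ^ (2 * g + 2) + (Fintype.card k : ℤ) ^ g *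
        ((Fintype.card k : ℤ) - 1) * (∑ x : k, quadraticChar k ((-1) ^ (g + 2) * (dp A B).eval x) +
          quadraticChar k ((-1) ^ (g + 2) * A.det)) := by
  have h1 := pencil_fun (fun y => - qf B y) (fun y => qf A y)
  have e1 : ∀ x : k, (univ.filter fun y : Fin (2 * (g + 1) + 2) → k => - qf B y + x * qf A y = 0) =
      univ.filter fun y : Fin (2 * (g + 1) + 2) → k => qf (x • A - B) y = 0 := by
    intro x
    refine Finset.filter_congr fun y _ => ?_
    have : qf (x • A - B) y = - qf B y + x * qf A y := by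
      unfold qf
      rw [sub_mulVec, smul_mulVec, dotProduct_sub, dotProduct_smul, smul_eq_mul]
      ring
    rw [this]
  have e2 : (univ.filter fun y : Fin (2 * (g + 1) + 2) → k => - qf B y = 0 ∧ qf A y = 0) =
      univ.filter fun y : Fin (2 * (g + 1) + 2) → k => qf B y = 0 ∧ qf A y = 0 :=
    Finset.filter_congr fun y _ => by rw [neg_eq_zero]
  rw [e2] at h1
  simp_rw [e1] at h1
  have z1 : ∀ x : k, ((univ.filter fun y : Fin (2 * (g + 1) + 2) → k =>
      qf (x • A - B) y = 0).card : ℤ) = _ := fun x =>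
    zeros_sym hk (g + 1) (x • A - B) ((hA.smul x).sub hB) (by
      intro P hP w hw i j hi hj
      by_cases h0 : (dp A B).eval x = 0
      · exact corank_one (hf x h0) hP hw i j hi hj
      · exfalso
        apply h0
        rw [dp_eval]
        have hd : ∏ i, w i = P.det ^ 2 * (x • A - B).det := by
          rw [← det_diagonal, ← hw, det_mul, det_mul, det_transpose]
          ring
        have h2 : ∏ i, w i = 0 := Finset.prod_eq_zero (mem_univ i) hi
        rw [h2] at hd
        exact (mul_eq_zero.1 hd.symm).resolve_left (pow_ne_zero 2 hP.ne_zero))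
  have z2 := zeros_sym hk (g + 1) A hA (by
      intro P hP w hw i j hi hj
      have hd : ∏ i, w i = P.det ^ 2 * A.det := by
        rw [← det_diagonal, ← hw, det_mul, det_mul, det_transpose]
        ring
      have h2 : ∏ i, w i = 0 := Finset.prod_eq_zero (mem_univ i) hi
      rw [h2] at hd
      have h3 := (mul_eq_zero.1 hd.symm).resolve_left (pow_ne_zero 2 hP.ne_zero)
      refine corank_one (A := B) (B := A) (x := 0) (hA0 h3) hP (w := fun i => - w i) ?_ i j
        (by rw [hi, neg_zero]) (by rw [hj, neg_zero])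
      have e : (0 : k) • B - A = - A := by rw [zero_smul, zero_sub]
      rw [e, Matrix.mul_neg, Matrix.neg_mul, hw, diagonal_neg])
  rw [z2, Finset.sum_congr rfl fun x _ => z1 x] at h1
  simp_rw [← dp_eval] at h1
  rw [Finset.sum_add_distrib, Finset.sum_const, ← Finset.sum_mul, ← Finset.sum_mul,
    Finset.card_univ, nsmul_eq_mul, Fintype.card_fun, Fintype.card_fin] at h1
  have hq : (Fintype.card k : ℤ) ≠ 0 := by
    exact_mod_cast Fintype.card_ne_zero
  apply mul_left_cancel₀ hq
  push_cast at h1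
  have e3 : (-1 : k) ^ (g + 1 + 1) = (-1) ^ (g + 2) := rfl
  rw [e3] at h1
  linear_combination h1

/-- the number of points in projective space -/
theorem numP_of_count [Fintype k] [DecidableEq k] (g : ℕ)
    (A B : Matrix (Fin (2 * (g + 1) + 2)) (Fin (2 * (g + 1) + 2)) k) (S : ℤ)
    (h : ((univ.filter fun y : Fin (2 * (g + 1) + 2) → k => qf B y = 0 ∧ qf A y = 0).card : ℤ) =
      (Fintype.card k : ℤ) ^ (2 * g + 2) + (Fintype.card k : ℤ) ^ g *
        ((Fintype.card k : ℤ) - 1) * S) :
    (numP A B : ℤ) = ∑ i ∈ range (2 * g + 2), (Fintype.card k : ℤ) ^ i +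
      (Fintype.card k : ℤ) ^ g * S := by
  classical
  have e2 : ((univ.filter fun y : Fin (2 * (g + 1) + 2) → k => qf B y = 0 ∧ qf A y = 0).card : ℤ) =
      (Nat.card {v : Fin (2 * (g + 1) + 2) → k // v ≠ 0 ∧ (qf A v = 0 ∧ qf B v = 0)} : ℤ) + 1 := by
    have e4 : (univ.filter fun y : Fin (2 * (g + 1) + 2) → k => qf B y = 0 ∧ qf A y = 0) =
        insert 0 (univ.filter fun y : Fin (2 * (g + 1) + 2) → k =>
          y ≠ 0 ∧ (qf A y = 0 ∧ qf B y = 0)) := by
      ext y
      simp only [Finset.mem_filter, Finset.mem_univ, true_and, Finset.mem_insert]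
      by_cases hy : y = 0
      · subst hy
        simp [qf]
      · simp [hy, and_comm]
    rw [e4, Finset.card_insert_of_notMem (by simp)]
    push_cast
    congr 2
    rw [Nat.card_eq_fintype_card, Fintype.card_subtype]
  have hcone : ∀ (c : kˣ) (v : Fin (2 * (g + 1) + 2) → k),
      (qf A (c • v) = 0 ∧ qf B (c • v) = 0) ↔ (qf A v = 0 ∧ qf B v = 0) := by
    intro c v
    rw [Units.smul_def, qf_smul, qf_smul]
    have hc0 : (c : k) ^ 2 ≠ 0 := pow_ne_zero 2 c.ne_zero
    simp [hc0]
  rw [e2, proj_card (k := k) (fun v => qf A v = 0 ∧ qf B v = 0) hcone] at h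
  have hq : 1 < Fintype.card k := Fintype.one_lt_card
  have hq1 : ((Fintype.card k : ℤ) - 1) ≠ 0 := by
    have : (1 : ℤ) < Fintype.card k := by exact_mod_cast hq
    omega
  push_cast [Nat.cast_sub hq.le] at h
  apply mul_left_cancel₀ hq1
  unfold Pool.Agent.N844.QP.numP
  have hg := mul_geom_sum (Fintype.card k : ℤ) (2 * g + 2)
  linear_combination h - hg

end lemmas

/-! ### products of linear forms -/

/-- the product of the linear polynomials `a_i X + b_i`, times `c` -/
noncomputable def lin {R : Type*} [CommRing R] {N : ℕ} (c : R) (a b : Fin N → R) : R[X] :=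
  C c * ∏ i, (C (a i) * X + C (b i))

lemma lin_eval {R : Type*} [CommRing R] {N : ℕ} (c : R) (a b : Fin N → R) (x : R) :
    (lin c a b).eval x = c * ∏ i, (a i * x + b i) := by
  unfold lin
  rw [eval_mul, eval_C, eval_prod]
  congr 1
  refine Finset.prod_congr rfl fun i _ => ?_
  simp only [eval_add, eval_mul, eval_X, eval_C]

lemma lin_map {R S : Type*} [CommRing R] [CommRing S] (f : R →+* S) {N : ℕ} (c : R)
    (a b : Fin N → R) :
    (lin c a b).map f = lin (f c) (fun i => f (a i)) (fun i => f (b i)) := by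
  unfold lin
  rw [Polynomial.map_mul, map_C, Polynomial.map_prod]
  congr 1
  refine Finset.prod_congr rfl fun i _ => ?_
  simp only [Polynomial.map_add, Polynomial.map_mul, map_C, map_X]

/-- the roots are simple -/
lemma lin_der {k : Type*} [Field k] {N : ℕ} {c : k} {a b : Fin N → k} (hN : 2 ≤ N) (hc : c ≠ 0)
    (h : ∀ i j, i ≠ j → a i * b j - a j * b i ≠ 0) (x : k) (hx : (lin c a b).eval x = 0) :
    (lin c a b).derivative.eval x ≠ 0 := by
  rw [lin_eval] at hx
  have hx' := (mul_eq_zero.1 hx).resolve_left hc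
  obtain ⟨i, -, hi⟩ := Finset.prod_eq_zero_iff.1 hx'
  have hj : ∀ j, j ≠ i → a j * x + b j ≠ 0 := by
    intro j hji hz
    exact h i j hji.symm (by linear_combination a i * hz - a j * hi)
  have hai : a i ≠ 0 := by
    intro ha
    have hb : b i = 0 := by rw [ha] at hi; linear_combination hi
    obtain ⟨j, hji⟩ : ∃ j : Fin N, i ≠ j := by
      by_cases h0 : i = ⟨0, by omega⟩
      · refine ⟨⟨1, by omega⟩, ?_⟩
        rw [h0]
        simp [Fin.ext_iff]
      · exact ⟨⟨0, by omega⟩, h0⟩
    exact h i j hji (by rw [ha, hb]; ring)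
  have e : (lin c a b).derivative.eval x = c * (a i * ∏ j ∈ univ.erase i, (a j * x + b j)) := by
    unfold lin
    rw [derivative_C_mul, derivative_prod_finset, eval_mul, eval_C, eval_finsetSum]
    congr 1
    rw [Finset.sum_eq_single i]
    · rw [eval_mul, eval_prod]
      simp only [derivative_add, derivative_C_mul, derivative_X, derivative_C, mul_one, add_zero,
        eval_C, eval_add, eval_mul, eval_X]
      ring
    · intro j _ hji
      rw [eval_mul, eval_prod]
      have : i ∈ univ.erase j := Finset.mem_erase.2 ⟨hji.symm, mem_univ _⟩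
      rw [Finset.prod_eq_zero this, zero_mul]
      simp only [eval_add, eval_mul, eval_X, eval_C]
      exact hi
    · intro hni
      exact absurd (mem_univ i) hni
  rw [e]
  exact mul_ne_zero hc (mul_ne_zero hai (Finset.prod_ne_zero_iff.2 fun j hj' =>
    hj j (Finset.ne_of_mem_erase hj')))

/-- the integral pencils with discriminant `c ∏ (a_i x + b_i z)` -/
structure IsPn {N : ℕ} (c : ℤ) (a b : Fin N → ℤ) (A B : Matrix (Fin N) (Fin N) ℤ) : Prop where
  symA : A.IsSymm
  symB : B.IsSymm
  disc : ∀ x z : ℤ, (x • A - z • B).det = c * ∏ i, (a i * x + b i * z)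

section pencil

variable {N : ℕ} {c : ℤ} {a b : Fin N → ℤ} {A B : Matrix (Fin N) (Fin N) ℤ}

lemma IsPn.dp_eq (h : IsPn c a b A B) : dp A B = lin c a b := by
  apply Polynomial.funext
  intro x
  have h1 := h.disc x 1
  rw [one_smul] at h1
  rw [dp_eval, lin_eval, h1]
  simp only [mul_one]

lemma IsPn.dp_eq' (h : IsPn c a b A B) (hN : Even N) : dp B A = lin c b a := by
  apply Polynomial.funext
  intro x
  have h1 := h.disc 1 x
  rw [one_smul] at h1
  have e : x • B - A = -(A - x • B) := by rw [neg_sub]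
  rw [dp_eval, lin_eval, e, det_neg, Fintype.card_fin, hN.neg_one_pow, one_mul, h1]
  congr 1
  refine Finset.prod_congr rfl fun i _ => ?_
  ring

lemma IsPn.detA (h : IsPn c a b A B) : A.det = c * ∏ i, a i := by
  have h1 := h.disc 1 0
  rw [one_smul, zero_smul, sub_zero] at h1
  rw [h1]
  congr 1
  refine Finset.prod_congr rfl fun i _ => ?_
  ring

variable {k : Type*} [Field k]

lemma IsPn.dpk (h : IsPn c a b A B) :
    dp (A.map (Int.castRingHom k)) (B.map (Int.castRingHom k)) =
      lin (c : k) (fun i => (a i : k)) (fun i => (b i : k)) := by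
  rw [dp_map, h.dp_eq, lin_map]
  simp

lemma IsPn.dpk' (h : IsPn c a b A B) (hN : Even N) :
    dp (B.map (Int.castRingHom k)) (A.map (Int.castRingHom k)) =
      lin (c : k) (fun i => (b i : k)) (fun i => (a i : k)) := by
  rw [dp_map, h.dp_eq' hN, lin_map]
  simp

lemma IsPn.detk (h : IsPn c a b A B) :
    (A.map (Int.castRingHom k)).det = (c : k) * ∏ i, (a i : k) := by
  have e : (A.map (Int.castRingHom k)).det = (Int.castRingHom k) A.det := by
    rw [RingHom.map_det]
    rfl
  rw [e, h.detA, map_mul, map_prod]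
  simp

/-- the conditions on the parameters in the field -/
structure Gd {k : Type*} [Field k] {N : ℕ} (c : k) (a b : Fin N → k) : Prop where
  hc : c ≠ 0
  hd : ∀ i j, i ≠ j → a i * b j - a j * b i ≠ 0

lemma IsPn.hf (h : IsPn c a b A B) (hN : 2 ≤ N)
    (hg : Gd (c : k) (fun i => (a i : k)) (fun i => (b i : k))) (x : k)
    (hx : (dp (A.map (Int.castRingHom k)) (B.map (Int.castRingHom k))).eval x = 0) :
    (dp (A.map (Int.castRingHom k)) (B.map (Int.castRingHom k))).derivative.eval x ≠ 0 := by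
  rw [h.dpk] at hx ⊢
  exact lin_der hN hg.hc hg.hd x hx

lemma IsPn.h0 (h : IsPn c a b A B) (hN : 2 ≤ N) (he : Even N)
    (hg : Gd (c : k) (fun i => (a i : k)) (fun i => (b i : k)))
    (hA : (A.map (Int.castRingHom k)).det = 0) :
    (dp (B.map (Int.castRingHom k)) (A.map (Int.castRingHom k))).derivative.eval 0 ≠ 0 := by
  rw [h.dpk' he]
  refine lin_der hN hg.hc (fun i j hij => ?_) 0 ?_
  · have := hg.hd j i hij.symm
    intro h0
    exact this (by linear_combination h0)
  · rw [lin_eval]
    rw [h.detk] at hA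
    simp only [mul_zero, zero_add]
    exact hA

/-- smoothness -/
theorem IsPn.smooth (h : IsPn c a b A B) (hN : 2 ≤ N) (he : Even N)
    (hg : Gd (c : k) (fun i => (a i : k)) (fun i => (b i : k)))
    {y : Fin N → k} (hy : y ≠ 0) (h6 : qf (A.map (Int.castRingHom k)) y = 0)
    (h7 : qf (B.map (Int.castRingHom k)) y = 0) :
    LinearIndependent k ![A.map (Int.castRingHom k) *ᵥ y, B.map (Int.castRingHom k) *ᵥ y] :=
  smooth' (h.symA.map _) (h.symB.map _) (h.h0 hN he hg) (h.hf hN hg) hy h6 h7

end pencil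

/-- the number of points -/
theorem IsPn.num {k : Type*} [Field k] [Fintype k] [DecidableEq k] {g : ℕ} {c : ℤ}
    {a b : Fin (2 * (g + 1) + 2) → ℤ}
    {A B : Matrix (Fin (2 * (g + 1) + 2)) (Fin (2 * (g + 1) + 2)) ℤ} (h : IsPn c a b A B)
    (h2 : (2 : k) ≠ 0) (hg : Gd (c : k) (fun i => (a i : k)) (fun i => (b i : k))) :
    (numP (A.map (Int.castRingHom k)) (B.map (Int.castRingHom k)) : ℤ) =
      ∑ i ∈ range (2 * g + 2), (Fintype.card k : ℤ) ^ i + (Fintype.card k : ℤ) ^ g *
        (∑ x : k, quadraticChar k ((-1) ^ (g + 2) * ((c : k) * ∏ i, ((a i : k) * x + (b i : k)))) +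
          quadraticChar k ((-1) ^ (g + 2) * ((c : k) * ∏ i, (a i : k)))) := by
  have hk : ringChar k ≠ 2 := by
    intro h0
    apply h2
    have := ringChar.spec k 2
    rw [h0] at this
    exact_mod_cast this.2 dvd_rfl
  have he : Even (2 * (g + 1) + 2) := ⟨g + 2, by ring⟩
  refine numP_of_count g _ _ _ ?_
  rw [count' hk g _ _ (h.symA.map _) (h.symB.map _) (h.h0 (by omega) he hg) (h.hf (by omega) hg)]
  rw [h.detk, h.dpk]
  simp_rw [lin_eval]

end Pool.Agent.N844.QH
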